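import Mathlib
import Pool.Agent.R365.AK.Main

/-!
# The count of the exceptional points `(x : 1 - x : -1)`, `x ∈ K`
-/

set_option autoImplicit false

namespace Pool.Agent.R425.MK

open NumberField IsDedekindDomain
open Pool.Agent.W223.AK (H3 R3)

/-- the point `(x : 1 - x : -1)` -/
def pt3 {K : Type} [Field K] (x : K) : Fin 3 → K := ![x, 1 - x, -1]

variable {K : Type} [Field K] [NumberField K]

theorem H3_nonneg (x : K) : 0 ≤ H3 (pt3 x) := by
  unfold H3
  refine add_nonneg (Finset.sum_nonneg fun w _ => mul_nonneg (Nat.cast_nonneg _)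
    (Real.log_nonneg ?_)) (finsum_nonneg fun v => Real.log_nonneg ?_)
  · have h : w (pt3 x 2) = 1 := by
      have h0 : w (-1) * w (-1) = 1 := by
        rw [← map_mul, neg_one_mul, neg_neg, map_one]
      have h1 : 0 ≤ w (-1) := apply_nonneg w (-1)
      show w (-1) = 1
      nlinarith
    rw [h]
    exact le_max_of_le_right (le_max_right _ _)
  · have h : FinitePlace.mk v (pt3 x 2) = 1 := by
      have h0 : FinitePlace.mk v (-1) * FinitePlace.mk v (-1) = 1 := by
        rw [← map_mul, neg_one_mul, neg_neg, map_one]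
      have h1 : 0 ≤ FinitePlace.mk v (-1) := apply_nonneg (FinitePlace.mk v) (-1)
      show FinitePlace.mk v (-1) = 1
      nlinarith
    rw [h]
    exact le_max_of_le_right (le_max_right _ _)

theorem R3_nonneg (T : Set (HeightOneSpectrum (𝓞 K))) (x : Fin 3 → K) : 0 ≤ R3 T x := by
  unfold R3
  refine finsum_nonneg fun v => finsum_nonneg fun _ => Real.log_nonneg ?_
  have h : 0 < Ideal.absNorm v.asIdeal := by
    rw [Nat.pos_iff_ne_zero]
    intro h0
    rw [Ideal.absNorm_eq_zero_iff] at h0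
    exact v.ne_bot h0
  exact_mod_cast h

/-- **The count.** -/
theorem count (T : Set (HeightOneSpectrum (𝓞 K))) (hT : T.Finite) {t : ℝ} (c₀ : ℝ) {δ : ℝ}
    (ht0 : 0 < t) (ht3 : t ≤ 3) (hδ : 0 < δ) : ∃ C : ℝ, ∀ B : ℝ, 1 ≤ B →
      {x : K | x ≠ 0 ∧ x ≠ 1 ∧ H3 (pt3 x) / (Module.finrank ℚ K : ℝ) ≤ Real.log B ∧
        R3 T (pt3 x) ≤ t * H3 (pt3 x) + c₀}.Finite ∧
      (({x : K | x ≠ 0 ∧ x ≠ 1 ∧ H3 (pt3 x) / (Module.finrank ℚ K : ℝ) ≤ Real.log B ∧
        R3 T (pt3 x) ≤ t * H3 (pt3 x) + c₀}.ncard : ℕ) : ℝ) ≤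
        C * B ^ ((Module.finrank ℚ K : ℝ) * Pool.Agent.R365.AK.eK t + δ) := by
  classical
  set d : ℝ := (Module.finrank ℚ K : ℝ) with hd
  have hdpos : 0 < d := by
    rw [hd]
    exact_mod_cast Module.finrank_pos
  obtain ⟨D, hD, hmain⟩ := Pool.Agent.R365.AK.final3 ht0.le
    (Pool.Agent.R365.AK.main3 K t ht0 ht3) T hT c₀ (δ / d) (div_pos hδ hdpos)
  refine ⟨D, fun B hB => ?_⟩
  have hB0 : 0 < B := by linarith
  have hlogB : 0 ≤ Real.log B := Real.log_nonneg hB
  set S : Set K := {x : K | x ≠ 0 ∧ x ≠ 1 ∧ H3 (pt3 x) / d ≤ Real.log B ∧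
        R3 T (pt3 x) ≤ t * H3 (pt3 x) + c₀} with hS
  set E : ℝ := d * Pool.Agent.R365.AK.eK t + δ with hE
  have hbound : ∀ G : Finset K, (G : Set K) ⊆ S → (G.card : ℝ) ≤ D * B ^ E := by
    intro G hG
    have hinj : Set.InjOn (pt3 : K → Fin 3 → K) G := by
      intro x _ y _ hxy
      have := congrFun hxy 0
      exact this
    have hcard : (G.image pt3).card = G.card := Finset.card_image_of_injOn hinj
    have h1 := hmain (d * Real.log B) (G.image pt3) (mul_nonneg hdpos.le hlogB) ?_ ?_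
    · rw [hcard] at h1
      refine h1.trans (le_of_eq ?_)
      rw [Real.rpow_def_of_pos hB0, hE]
      congr 2
      field_simp
    · intro z hz
      obtain ⟨x, hx, rfl⟩ := Finset.mem_image.mp hz
      obtain ⟨hx0, hx1, hH, hR⟩ := hG hx
      refine ⟨hx0, ?_, ?_, ?_, ?_, hR⟩
      · show 1 - x ≠ 0
        exact sub_ne_zero.mpr (Ne.symm hx1)
      · show (-1 : K) ≠ 0
        exact neg_ne_zero.mpr one_ne_zero
      · show x + (1 - x) + (-1) = 0
        ring
      · rw [div_le_iff₀ hdpos] at hH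
        linarith
    · intro z hz z' hz' hzz
      obtain ⟨x, hx, rfl⟩ := Finset.mem_image.mp hz
      obtain ⟨y, hy, rfl⟩ := Finset.mem_image.mp hz'
      obtain ⟨hx0, hx1, _, _⟩ := hG hx
      obtain ⟨hy0, hy1, _, _⟩ := hG hy
      have h2 : x / (1 - x) = y / (1 - y) := hzz
      have h3 : (1 - x) ≠ 0 := sub_ne_zero.mpr (Ne.symm hx1)
      have h4 : (1 - y) ≠ 0 := sub_ne_zero.mpr (Ne.symm hy1)
      rw [div_eq_div_iff h3 h4] at h2
      have h5 : x = y := by linear_combination h2
      rw [h5]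
  have hfin : S.Finite := by
    by_contra hinf
    obtain ⟨G, hGV, hGc⟩ := Set.Infinite.exists_subset_card_eq hinf (⌊D * B ^ E⌋₊ + 1)
    have h1 := hbound G hGV
    have h2 := Nat.lt_floor_add_one (D * B ^ E)
    rw [hGc] at h1
    push_cast at h1
    linarith
  refine ⟨hfin, ?_⟩
  rw [Set.ncard_eq_toFinset_card _ hfin]
  exact hbound hfin.toFinset (by rw [Set.Finite.coe_toFinset])

variable (K) in
theorem countable_K : Countable K :=
  (Module.finBasis ℚ K).equivFun.injective.countable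

/-- the primes of a number field are countable -/
theorem countable_primes : Countable (HeightOneSpectrum (𝓞 K)) := by
  have h1 : Countable (𝓞 K) := by
    have := countable_K K
    exact Function.Injective.countable (f := fun x : 𝓞 K => (x : K)) RingOfIntegers.coe_injective
  have h2 : ∀ I : Ideal (𝓞 K), ∃ G : Finset (𝓞 K), Ideal.span (G : Set (𝓞 K)) = I := fun I =>
    (IsNoetherian.noetherian I)
  choose g hg using h2
  have h3 : Function.Injective g := by
    intro I J hIJ
    rw [← hg I, ← hg J, hIJ]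
  have h4 : Function.Injective fun v : HeightOneSpectrum (𝓞 K) => g v.asIdeal := by
    intro v w hvw
    exact HeightOneSpectrum.ext (h3 hvw)
  exact h4.countable

end Pool.Agent.R425.MK
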