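import Mathlib
import Pool.Agent.R479.DA.Lim

/-!
# Limsup sets of balls in metric spaces: Hausdorff dimension and measure
-/

set_option autoImplicit false

namespace Pool.Agent.R425.MK

open Filter Topology MeasureTheory Finset
open scoped ENNReal NNReal

/-- **Limsup sets.** If the sets `U i` have diameters at most `d i`, and the sum of the
`(d i) ^ D` converges, then the points in infinitely many of the `U i` form a set of dimension at
most `D`. -/
theorem dimH_limsup {X : Type} [MetricSpace X] {ι : Type} [Countable ι] (U : ι → Set X)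
    (d : ι → ℝ) (hd : ∀ i, 0 < d i)
    (hU : ∀ i, Metric.ediam (U i) ≤ ENNReal.ofReal (d i)) {D : ℝ} (hD : 0 < D)
    (hs : Summable fun i => d i ^ D) :
    dimH {x | {i | x ∈ U i}.Infinite} ≤ ENNReal.ofReal D := by
  borelize X
  have hDn : ((Real.toNNReal D : ℝ≥0) : ℝ) = D := Real.coe_toNNReal D hD.le
  have hgoal : ENNReal.ofReal D = ((Real.toNNReal D : ℝ≥0) : ℝ≥0∞) := rfl
  rw [hgoal]
  apply dimH_le_of_hausdorffMeasure_ne_top
  rw [hDn]
  -- the diameters tend to zero
  have hd0 : Tendsto d cofinite (𝓝 0) := by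
    have h1 := hs.tendsto_cofinite_zero
    have h2 : Tendsto (fun i => (d i ^ D) ^ (1 / D)) cofinite (𝓝 (0 ^ (1 / D))) :=
      h1.rpow_const (Or.inr (by positivity))
    rw [Real.zero_rpow (by positivity)] at h2
    refine h2.congr fun i => ?_
    rw [← Real.rpow_mul (hd i).le, mul_one_div_cancel hD.ne', Real.rpow_one]
  set r : Finset ι → ℝ≥0∞ := fun F => ⨆ i : {i // i ∉ F}, ENNReal.ofReal (d i) with hr
  have hrt : Tendsto r atTop (𝓝 0) := by
    rw [ENNReal.tendsto_nhds_zero]
    intro ε hε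
    have h1 := ENNReal.tendsto_ofReal hd0
    rw [ENNReal.ofReal_zero] at h1
    have h2 := h1.eventually (ge_mem_nhds hε)
    rw [Filter.eventually_cofinite] at h2
    filter_upwards [eventually_ge_atTop h2.toFinset] with F hF
    refine iSup_le fun i => ?_
    by_contra hcon
    apply i.2
    apply hF
    rw [Set.Finite.mem_toFinset]
    exact hcon
  have key := Measure.hausdorffMeasure_le_liminf_tsum (X := X) (β := Finset ι)
    (ι := fun F => {i // i ∉ F}) D {x | {i | x ∈ U i}.Infinite} (l := atTop) r hrt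
    (fun F i => U i)
    (Eventually.of_forall fun F i =>
      (hU i).trans (le_iSup (fun i : {i // i ∉ F} => ENNReal.ofReal (d i)) i))
    (Eventually.of_forall fun F x hx => by
      obtain ⟨i, hi, hiF⟩ := hx.exists_notMem_finset F
      rw [Set.mem_iUnion]
      exact ⟨⟨i, hiF⟩, hi⟩)
  refine ne_top_of_le_ne_top ?_ key
  have hnn : ∀ i, 0 ≤ d i ^ D := fun i => Real.rpow_nonneg (hd i).le _
  have htot : (∑' i, ENNReal.ofReal (d i ^ D)) ≠ ⊤ := by
    rw [← ENNReal.ofReal_tsum_of_nonneg hnn hs]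
    exact ENNReal.ofReal_ne_top
  have hbound : ∀ F : Finset ι, (∑' i : {i // i ∉ F}, Metric.ediam (U i) ^ D) ≤
      ∑' i, ENNReal.ofReal (d i ^ D) := by
    intro F
    calc (∑' i : {i // i ∉ F}, Metric.ediam (U i) ^ D)
        ≤ ∑' i : {i // i ∉ F}, ENNReal.ofReal (d i ^ D) := by
          apply ENNReal.tsum_le_tsum
          intro i
          rw [← ENNReal.ofReal_rpow_of_pos (hd i)]
          exact ENNReal.rpow_le_rpow (hU i) hD.le
      _ ≤ ∑' i, ENNReal.ofReal (d i ^ D) :=
          ENNReal.tsum_comp_le_tsum_of_injective (f := fun i : {i // i ∉ F} => (i : ι))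
            Subtype.val_injective (fun i => ENNReal.ofReal (d i ^ D))
  refine ne_top_of_le_ne_top htot ?_
  apply Filter.liminf_le_of_le
  · isBoundedDefault
  · intro b hb
    obtain ⟨n, hn⟩ := hb.exists
    exact hn.trans (hbound n)

/-- **Balls around a thin sequence.** Let `H i ≥ 1` be such that at most `C B ^ (s + ε)` indices
have `H i ≤ B`, for every `ε > 0`. The points in infinitely many of the balls of radius
`A (H i) ^ (-τ)` around the `y i` form a set of dimension at most `s / τ`. -/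
theorem dimH_balls {X : Type} [MetricSpace X] {ι : Type} [Countable ι] (y : ι → X) (H : ι → ℝ)
    (h1 : ∀ i, 1 ≤ H i) {s τ A : ℝ} (hs : 0 ≤ s) (hτ : 0 < τ) (hA : 0 < A)
    (hcount : ∀ ε : ℝ, 0 < ε → ∃ C : ℝ, ∀ B : ℝ, 1 ≤ B → {i | H i ≤ B}.Finite ∧
      (({i | H i ≤ B}.ncard : ℕ) : ℝ) ≤ C * B ^ (s + ε)) :
    dimH {ξ : X | {i | dist (y i) ξ ≤ A * H i ^ (-τ)}.Infinite} ≤ ENNReal.ofReal (s / τ) := by
  apply ENNReal.le_of_forall_pos_le_add
  intro ε hε _
  have hε' : (0 : ℝ) < ε := by exact_mod_cast hε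
  rw [← ENNReal.ofReal_coe_nnreal (p := ε), ← ENNReal.ofReal_add (by positivity) hε'.le]
  set D : ℝ := s / τ + ε with hD
  have hD0 : 0 < D := by positivity
  have hDτ : D * τ = s + ε * τ := by
    rw [hD, add_mul, div_mul_cancel₀ _ hτ.ne']
  obtain ⟨C, hC⟩ := hcount (ε * τ / 2) (by positivity)
  have hpos : ∀ i, 0 < H i := fun i => lt_of_lt_of_le one_pos (h1 i)
  have hsum : Summable fun i => (2 * (A * H i ^ (-τ))) ^ D := by
    have h2 := Pool.Agent.R479.DA.summable_heights H h1 (s := s + ε * τ / 2) (p := D * τ) (C := C)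
        (by rw [hDτ]; nlinarith [mul_pos hε' hτ]) (by positivity) hC
    refine (h2.mul_left ((2 * A) ^ D)).congr fun t => ?_
    have := hpos t
    have e : 2 * (A * H t ^ (-τ)) = (2 * A) * H t ^ (-τ) := by ring
    rw [e, Real.mul_rpow (x := 2 * A) (by positivity) (by positivity), ← Real.rpow_mul this.le]
    congr 2
    ring
  have h3 := dimH_limsup (fun i => Metric.closedBall (y i) (A * H i ^ (-τ)))
    (fun i => 2 * (A * H i ^ (-τ))) (fun i => by
      have := hpos i
      positivity) (fun i => by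
      have := hpos i
      refine Metric.ediam_le fun a ha b hb => ?_
      rw [Metric.mem_closedBall] at ha hb
      rw [edist_dist]
      apply ENNReal.ofReal_le_ofReal
      have := dist_triangle_right a b (y i)
      linarith) hD0 hsum
  refine le_trans (dimH_mono ?_) h3
  intro ξ hξ
  simp only [Set.mem_ofPred_eq] at hξ ⊢
  refine hξ.mono fun i hi => ?_
  simp only [Set.mem_ofPred_eq, Metric.mem_closedBall] at hi ⊢
  rw [dist_comm]
  exact hi

/-- **Balls around a thin sequence, measure.** If `μ` of every ball of radius `r` is at most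
`C₀ r ^ m` and `s < τ m`, almost every point is in only finitely many of the balls. -/
theorem ae_balls {X : Type} [MetricSpace X] [MeasurableSpace X] (μ : Measure X)
    {C₀ m : ℝ} (hμ : ∀ (x : X) (r : ℝ), 0 < r → μ (Metric.closedBall x r) ≤ ENNReal.ofReal (C₀ * r ^ m))
    {ι : Type} [Countable ι] (y : ι → X) (H : ι → ℝ)
    (h1 : ∀ i, 1 ≤ H i) {s τ A : ℝ} (hs : 0 ≤ s) (hsm : s < τ * m) (hA : 0 < A)
    (hcount : ∀ ε : ℝ, 0 < ε → ∃ C : ℝ, ∀ B : ℝ, 1 ≤ B → {i | H i ≤ B}.Finite ∧
      (({i | H i ≤ B}.ncard : ℕ) : ℝ) ≤ C * B ^ (s + ε)) :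
    ∀ᵐ ξ ∂μ, {i | dist (y i) ξ ≤ A * H i ^ (-τ)}.Finite := by
  have hpos : ∀ i, 0 < H i := fun i => lt_of_lt_of_le one_pos (h1 i)
  obtain ⟨C, hC⟩ := hcount ((τ * m - s) / 2) (by linarith)
  have h2 := Pool.Agent.R479.DA.summable_heights H h1 (s := s + (τ * m - s) / 2) (p := τ * m)
    (C := C) (by linarith) (by linarith) hC
  set C₁ : ℝ := max C₀ 0 with hC₁
  have hC₁0 : 0 ≤ C₁ := le_max_right _ _
  have h3 : Summable fun i => C₁ * (A * H i ^ (-τ)) ^ m := by
    refine (h2.mul_left (C₁ * A ^ m)).congr fun i => ?_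
    have := hpos i
    rw [Real.mul_rpow hA.le (by positivity), ← Real.rpow_mul this.le, mul_assoc]
    congr 3
    ring
  have h4 : (∑' i, μ (Metric.closedBall (y i) (A * H i ^ (-τ)))) ≠ ⊤ := by
    have hnn : ∀ i, 0 ≤ C₁ * (A * H i ^ (-τ)) ^ m := fun i => by
      have := hpos i
      positivity
    have h5 : (∑' i, ENNReal.ofReal (C₁ * (A * H i ^ (-τ)) ^ m)) ≠ ⊤ := by
      rw [← ENNReal.ofReal_tsum_of_nonneg hnn h3]
      exact ENNReal.ofReal_ne_top
    refine ne_top_of_le_ne_top h5 (ENNReal.tsum_le_tsum fun i => ?_)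
    have := hpos i
    refine (hμ _ _ (by positivity)).trans (ENNReal.ofReal_le_ofReal ?_)
    have h6 : C₀ ≤ C₁ := le_max_left _ _
    gcongr
  have h5 := ae_finite_setOfPred_mem h4
  filter_upwards [h5] with ξ hξ
  refine hξ.subset fun i hi => ?_
  simp only [Set.mem_ofPred_eq, Metric.mem_closedBall] at hi ⊢
  rw [dist_comm]
  exact hi

end Pool.Agent.R425.MK
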